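import Mathlib

/-! The compositum of a Galois extension with an arbitrary extension. -/

set_option autoImplicit false
set_option linter.all false

open Module

namespace Pool.Agent.H89.IT

theorem exists_comp {K K' L : Type} [Field K] [Field K'] [Algebra K K'] [FiniteDimensional K K']
    [IsGalois K K'] [Field L] [Algebra K L] :
    ∃ (M : Type) (_ : Field M) (_ : Algebra L M) (ψ : K' →+* M)
      (res : (M ≃ₐ[L] M) →* (K' ≃ₐ[K] K')),
      FiniteDimensional L M ∧ IsGalois L M ∧
      (∀ x : K, ψ (algebraMap K K' x) = algebraMap L M (algebraMap K L x)) ∧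
      (∀ (σ : M ≃ₐ[L] M) (x : K'), σ (ψ x) = ψ (res σ x)) ∧ Function.Injective res := by
  obtain ⟨f, hf, hsp⟩ := IsGalois.is_separable_splitting_field K K'
  let g := f.map (algebraMap K L)
  have hg : g.Separable := hf.map
  let M := g.SplittingField
  haveI : IsScalarTower K L M := inferInstance
  have hsplit : (f.map (algebraMap K M)).Splits := by
    have h1 := Polynomial.SplittingField.splits g
    rw [Polynomial.map_map] at h1
    rwa [IsScalarTower.algebraMap_eq K L M]
  let ψ : K' →ₐ[K] M := Polynomial.IsSplittingField.lift K' f hsplit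
  letI : Algebra K' M := ψ.toRingHom.toAlgebra
  haveI : IsScalarTower K K' M := IsScalarTower.of_algebraMap_eq fun x => (ψ.commutes x).symm
  haveI : IsGalois L M := IsGalois.of_separable_splitting_field (p := g) hg
  let res : (M ≃ₐ[L] M) →* (K' ≃ₐ[K] K') :=
    (AlgEquiv.restrictNormalHom K').comp
      { toFun := fun σ => σ.restrictScalars K
        map_one' := rfl
        map_mul' := fun _ _ => rfl }
  have hres : ∀ (σ : M ≃ₐ[L] M) (x : K'), σ (ψ x) = ψ (res σ x) := by
    intro σ x
    exact (AlgEquiv.restrictNormal_commutes (σ.restrictScalars K) K' x).symm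
  refine ⟨M, inferInstance, inferInstance, ψ.toRingHom, res, inferInstance, inferInstance,
    fun x => ψ.commutes x, hres, ?_⟩
  rw [injective_iff_map_eq_one]
  intro σ hσ
  have h1 : ∀ x : K', σ (ψ x) = ψ x := fun x => by rw [hres, hσ]; rfl
  have h2 : ∀ z ∈ g.rootSet M, σ z = z := by
    intro z hz
    have h3 : f.rootSet M = ψ '' f.rootSet K' :=
      (Polynomial.IsSplittingField.splits K' f).image_rootSet ψ |>.symm
    have h4 : z ∈ f.rootSet M := by
      rw [Polynomial.mem_rootSet] at hz ⊢
      refine ⟨?_, ?_⟩
      · rintro rfl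
        exact hz.1 (Polynomial.map_zero _)
      · have := hz.2
        rwa [Polynomial.aeval_map_algebraMap] at this
    rw [h3] at h4
    obtain ⟨y, -, rfl⟩ := h4
    exact h1 y
  have h5 : Algebra.adjoin L (g.rootSet M) = ⊤ := Polynomial.IsSplittingField.adjoin_rootSet M g
  have h6 : (σ : M →ₐ[L] M) = AlgHom.id L M := by
    apply AlgHom.ext_of_adjoin_eq_top h5
    intro z hz
    exact h2 z hz
  apply AlgEquiv.ext
  intro z
  exact congrArg (fun h : M →ₐ[L] M => h z) h6

end Pool.Agent.H89.IT
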