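import Pool.Agent.H89.FP.Ext

/-! Projective varieties over a field `K ⊇ k` which become constant over a Galois extension. -/

set_option autoImplicit false
set_option linter.all false

open Module

namespace Pool.Agent.H89.IT

/-- `P` is a point over the field `L` of the projective variety defined by the set `H` of forms with
coefficients in `R`, for a homomorphism `R → L` -/
def Pts {R : Type} [Field R] {N : ℕ} (H : Set (MvPolynomial (Fin N) R)) {L : Type} [Field L]
    (φ : R →+* L) (P : Fin N → L) : Prop :=
  P ≠ 0 ∧ ∀ h ∈ H, MvPolynomial.eval₂ φ P h = 0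

/-- `X` is a form over `K` of the variety `Y` over `k`, with a constant cocycle: over the Galois
extension `K'` of `K` the invertible matrix `A` maps `Y` onto `X`, and for all `σ` in the Galois group
`A⁻¹ σ(A)` is, up to a scalar factor, a matrix with entries in `k`. -/
structure IsTwist {k K K' : Type} [Field k] [Field K] [Algebra k K] [Field K'] [Algebra K K'] {N : ℕ}
    (Y : Set (MvPolynomial (Fin N) k)) (X : Set (MvPolynomial (Fin N) K))
    (A : Matrix (Fin N) (Fin N) K') : Prop where
  unit : IsUnit A.det
  pts : ∀ (L : Type) [Field L] (ψ : K' →+* L) (y : Fin N → L),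
    Pts Y (ψ.comp ((algebraMap K K').comp (algebraMap k K))) y ↔
      Pts X (ψ.comp (algebraMap K K')) ((A.map ψ).mulVec y)
  cocycle : ∀ σ : K' ≃ₐ[K] K', ∃ (c : K') (ρ : Matrix (Fin N) (Fin N) k),
    A.map σ = c • (A * ρ.map ((algebraMap K K').comp (algebraMap k K)))

end Pool.Agent.H89.IT
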