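import Pool.Agent.H89.IT.LocC
import Pool.Agent.H89.FP.Glob

/-! From fixed constant points to points of degree prime to `ℓ`. -/

set_option autoImplicit false
set_option linter.all false

open Module
open scoped Classical Pointwise

namespace Pool.Agent.H89.IT

theorem const_global {k K K' : Type} [Field k] [Finite k] [Field K] [Algebra k K] [Field K']
    [Algebra K K'] [FiniteDimensional K K'] [IsGalois K K'] {ℓ : ℕ} (hℓ : ℓ.Prime)
    {N : ℕ} {Y : Set (MvPolynomial (Fin N) k)} {X : Set (MvPolynomial (Fin N) K)}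
    (hX : ∀ H ∈ X, ∃ e, H.IsHomogeneous e) {A : Matrix (Fin N) (Fin N) K'} (hA : IsTwist Y X A)
    (E : Type) [Field E] [Algebra k E] [FiniteDimensional k E] (hE : ¬ ℓ ∣ finrank k E)
    (b : Fin N → E) (S : Subgroup (K' ≃ₐ[K] K'))
    (hS : Nat.card S = ℓ ^ (finrank K K').factorization ℓ) (hb : Pts Y (algebraMap k E) b)
    (hfix : ∀ g ∈ S, ∃ (c : K') (ρ : Matrix (Fin N) (Fin N) k) (χ : E),
      A.map g = c • (A * ρ.map ((algebraMap K K').comp (algebraMap k K))) ∧
      (ρ.map (algebraMap k E)).mulVec b = χ • b) :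
    ∃ (L : Type) (_ : Field L) (_ : Algebra K L) (P : Fin N → L), FiniteDimensional K L ∧
      ¬ ℓ ∣ finrank K L ∧ Pts X (algebraMap K L) P := by
  haveI : Fact ℓ.Prime := ⟨hℓ⟩
  obtain ⟨L₀, _, _, _, hnd, g, hg⟩ := Pool.Agent.H89.FP.exists_const_ext (K := K) (ℓ := ℓ) E hE
  obtain ⟨M, _, _, ψ, res, _, _, hψ, hres, hinj⟩ := exists_comp (K := K) (K' := K') (L := L₀)
  have hcardM : Nat.card (M ≃ₐ[L₀] M) = finrank L₀ M := IsGalois.card_aut_eq_finrank L₀ M
  have hcardG : Nat.card (K' ≃ₐ[K] K') = finrank K K' := IsGalois.card_aut_eq_finrank K K'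
  let SS : Sylow ℓ (K' ≃ₐ[K] K') := Sylow.ofCard S (by rw [hS, hcardG])
  have hSS : (SS : Subgroup (K' ≃ₐ[K] K')) = S := rfl
  obtain ⟨S₂⟩ : Nonempty (Sylow ℓ (M ≃ₐ[L₀] M)) := inferInstance
  have hp : IsPGroup ℓ ((S₂ : Subgroup (M ≃ₐ[L₀] M)).map res) := S₂.isPGroup'.map res
  obtain ⟨Q, hQ⟩ := hp.exists_le_sylow
  obtain ⟨τ, hτ⟩ := MulAction.exists_smul_eq (K' ≃ₐ[K] K') Q SS
  have hconj : ∀ s ∈ (S₂ : Subgroup (M ≃ₐ[L₀] M)), τ * res s * τ⁻¹ ∈ S := by
    intro s hs
    have h1 : res s ∈ (Q : Subgroup (K' ≃ₐ[K] K')) := hQ ⟨s, hs, rfl⟩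
    rw [← hSS, ← hτ, Sylow.coe_subgroup_smul]
    exact Subgroup.smul_mem_pointwise_smul (res s) (MulAut.conj τ) _ h1
  -- the fixed field
  let L' := IntermediateField.fixedField (S₂ : Subgroup (M ≃ₐ[L₀] M))
  have hd1 : finrank L' M = ℓ ^ (finrank L₀ M).factorization ℓ := by
    rw [IntermediateField.finrank_fixedField_eq_card, ← hcardM]
    exact S₂.card_eq_multiplicity
  have hd2 : ¬ ℓ ∣ finrank L₀ L' := by
    intro h
    have h1 : finrank L₀ L' * finrank L' M = finrank L₀ M := finrank_mul_finrank L₀ L' M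
    have h2 : ℓ ^ ((finrank L₀ M).factorization ℓ + 1) ∣ finrank L₀ L' * finrank L' M := by
      rw [hd1, pow_succ, mul_comm]
      exact mul_dvd_mul_right h _
    rw [h1] at h2
    exact Nat.pow_succ_factorization_not_dvd finrank_pos.ne' hℓ h2
  letI : Algebra K L' := ((algebraMap L₀ L').comp (algebraMap K L₀)).toAlgebra
  haveI : IsScalarTower K L₀ L' := IsScalarTower.of_algebraMap_eq' rfl
  haveI : FiniteDimensional K L' := FiniteDimensional.trans K L₀ L'
  have hd3 : ¬ ℓ ∣ finrank K L' := by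
    rw [← finrank_mul_finrank K L₀ L', hℓ.dvd_mul]
    rintro (h | h)
    · exact hnd h
    · exact hd2 h
  -- the point
  let θ : K' →+* M := ψ.comp ((τ⁻¹ : K' ≃ₐ[K] K') : K' →+* K')
  have hθ : ∀ x, θ x = ψ (τ⁻¹ x) := fun x => rfl
  have hθK : ∀ x : K, θ (algebraMap K K' x) = algebraMap L₀ M (algebraMap K L₀ x) := by
    intro x
    rw [hθ, AlgEquiv.commutes, hψ]
  let gb : Fin N → M := fun i => algebraMap L₀ M (g (b i))
  let B : Matrix (Fin N) (Fin N) M := A.map θ
  let v : Fin N → M := B.mulVec gb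
  have hk : (θ.comp ((algebraMap K K').comp (algebraMap k K))) =
      ((algebraMap L₀ M).comp g).comp (algebraMap k E) := by
    ext c
    change θ (algebraMap K K' (algebraMap k K c)) = algebraMap L₀ M (g (algebraMap k E c))
    rw [hθK, hg]
  have hgb : Pts Y (θ.comp ((algebraMap K K').comp (algebraMap k K))) gb := by
    rw [hk]
    refine ⟨fun h0 => hb.1 ?_, fun H hH => ?_⟩
    · funext i
      have := congrFun h0 i
      exact (map_eq_zero ((algebraMap L₀ M).comp g)).1 this
    · have h1 := congrArg ((algebraMap L₀ M).comp g) (hb.2 H hH)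
      rw [map_zero, MvPolynomial.hom_eval₂] at h1
      exact h1
  have hv : Pts X (θ.comp (algebraMap K K')) v := (hA.pts M θ gb).1 hgb
  have hsv : ∀ s ∈ (S₂ : Subgroup (M ≃ₐ[L₀] M)), ∃ lam : M, ∀ i, s (v i) = lam * v i := by
    intro s hs
    obtain ⟨c, ρ, χ, h1, h2⟩ := hfix _ (hconj s hs)
    refine ⟨θ c * algebraMap L₀ M (g χ), fun i => ?_⟩
    have e1 : B.map s = θ c • (B * ρ.map (θ.comp ((algebraMap K K').comp (algebraMap k K)))) := by
      have e2 : B.map s = (A.map (τ * res s * τ⁻¹ : K' ≃ₐ[K] K')).map θ := by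
        ext i j
        simp only [B, Matrix.map_apply]
        rw [hθ, hθ, hres]
        congr 1
        exact (AlgEquiv.symm_apply_apply τ _).symm
      rw [e2, h1]
      ext i j
      simp only [Matrix.map_apply, Matrix.smul_apply, smul_eq_mul, map_mul, Matrix.mul_apply,
        map_sum, B]
      rfl
    have e3 : (fun i => s (v i)) = (B.map s).mulVec gb := by
      have e4 : (fun i => s (gb i)) = gb := by
        funext i
        exact s.commutes (g (b i))
      have e5 := map_mulVec_hom (s : M →+* M) B gb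
      change (B.map s).mulVec (fun i => s (gb i)) = _ at e5
      rw [e4] at e5
      exact e5.symm
    have e6 : (ρ.map (θ.comp ((algebraMap K K').comp (algebraMap k K)))).mulVec gb =
        algebraMap L₀ M (g χ) • gb := by
      rw [hk]
      have e7 := map_mulVec_hom ((algebraMap L₀ M).comp g) (ρ.map (algebraMap k E)) b
      rw [h2] at e7
      have e8 : (ρ.map (algebraMap k E)).map ((algebraMap L₀ M).comp g) =
          ρ.map (((algebraMap L₀ M).comp g).comp (algebraMap k E)) := by
        ext i j; rfl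
      rw [e8] at e7
      funext i
      have e9 := congrFun e7 i
      refine e9.trans ?_
      simp only [Pi.smul_apply, smul_eq_mul, map_mul]
      rfl
    have e10 := congrFun e3 i
    refine e10.trans ?_
    rw [e1, Matrix.smul_mulVec, ← Matrix.mulVec_mulVec, e6, Matrix.mulVec_smul]
    simp only [Pi.smul_apply, smul_eq_mul, v]
    ring
  obtain ⟨j, hj⟩ := Function.ne_iff.1 hv.1
  have hj' : v j ≠ 0 := hj
  have hmem : ∀ i, v i / v j ∈ L' := by
    intro i
    rw [IntermediateField.mem_fixedField_iff]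
    intro s hs
    obtain ⟨lam, hlam⟩ := hsv s hs
    have hl0 : lam ≠ 0 := by
      rintro rfl
      have e1 := hlam j
      rw [zero_mul] at e1
      exact hj' ((map_eq_zero_iff s s.injective).1 e1)
    rw [map_div₀, hlam, hlam, mul_div_mul_left _ _ hl0]
  let P : Fin N → L' := fun i => ⟨v i / v j, hmem i⟩
  refine ⟨L', inferInstance, inferInstance, P, inferInstance, hd3, ?_, fun H hH => ?_⟩
  · intro h0
    have h1 := congrArg (fun z : L' => (z : M)) (congrFun h0 j)
    change v j / v j = 0 at h1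
    rw [div_self hj'] at h1
    exact one_ne_zero h1
  · apply (algebraMap L' M).injective
    rw [map_zero, MvPolynomial.hom_eval₂]
    obtain ⟨e, he⟩ := hX H hH
    have h1 := hv.2 H hH
    have h2 : ((algebraMap L' M).comp (algebraMap K L')) = θ.comp (algebraMap K K') := by
      ext x
      change algebraMap L₀ M (algebraMap K L₀ x) = θ (algebraMap K K' x)
      rw [hθK]
    rw [h2]
    letI : Algebra K M := (θ.comp (algebraMap K K')).toAlgebra
    have h3 : MvPolynomial.aeval (fun i => (v j)⁻¹ * v i) H = (v j)⁻¹ ^ e * MvPolynomial.aeval v H := by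
      have h4 : MvPolynomial.eval₂ (algebraMap K M) (fun i => (v j)⁻¹ * v i) H =
          (v j)⁻¹ ^ e * MvPolynomial.eval₂ (algebraMap K M) v H := by
        rw [MvPolynomial.eval₂_eq', MvPolynomial.eval₂_eq', Finset.mul_sum]
        refine Finset.sum_congr rfl fun d hd => ?_
        have h5 : ∑ i, d i = e := by
          have := he (MvPolynomial.mem_support_iff.1 hd)
          rw [← this, Finsupp.weight_apply, Finsupp.sum_fintype _ _ (fun _ => by simp)]
          simp
        simp only [mul_pow, Finset.prod_mul_distrib]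
        rw [Finset.prod_pow_eq_pow_sum, h5]
        ring
      exact h4
    have h6 : (fun i => algebraMap L' M (P i)) = fun i => (v j)⁻¹ * v i := by
      funext i
      change v i / v j = _
      rw [div_eq_inv_mul]
    have h7 : MvPolynomial.aeval v H = 0 := h1
    have h8 := h3
    rw [h7, mul_zero, ← h6] at h8
    exact h8

end Pool.Agent.H89.IT
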