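import Pool.Agent.H89.FP.Rd2
import Pool.Agent.H89.FP.Pt

/-! The action of the inertia group on the residue field. -/

set_option autoImplicit false
set_option linter.all false

open Polynomial WithZero Filter Topology Module
open scoped Classical NNReal
open Pool.Agent.H89.FP

namespace Pool.Agent.H89.IT

section loc

variable {k F M : Type} [Field k] [Finite k] [Field F] [Algebra k F]
  [Valued F (WithZero (Multiplicative ℤ))] [Field M] [Algebra F M] [Algebra k M]
  [IsScalarTower k F M] {w : Valuation M ℝ≥0}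

theorem w_aut [FiniteDimensional F M] (hw : IsExt F M w) (σ : M ≃ₐ[F] M) (x : M) :
    w (σ x) = w x := by
  have h1 := hw.norm (σ x)
  have h2 : Algebra.norm F (σ x) = Algebra.norm F x := Algebra.norm_eq_of_algEquiv σ x
  rw [h2, ← hw.norm x] at h1
  exact (pow_left_inj₀ zero_le zero_le finrank_pos.ne').1 h1

/-- the elements of order a power of `ℓ` act trivially on the residue field if the latter contains
no extension of `k` of degree `ℓ` -/
theorem act_trivial {δ ℓ : ℕ} [FiniteDimensional F M] (hpl : IsPlace k F δ) (hw : IsExt F M w)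
    (hℓ : ℓ.Prime) (hno : ∀ α : M, α ^ (Nat.card k ^ ℓ) = α → α ^ Nat.card k = α)
    (σ : M ≃ₐ[F] M) (j : ℕ) (hσ : σ ^ (ℓ ^ j) = 1) (a : M) (ha : w a ≤ 1) : w (σ a - a) < 1 := by
  obtain ⟨E, _, _, b, _, -, hb⟩ := reduce hpl hw hℓ hno (fun _ : Unit => a) (fun _ => ha)
  haveI : Finite E := Module.finite_of_finite k
  set m := finrank k E with hm
  have hmpos : 0 < m := finrank_pos
  have h1 : w (a ^ (Nat.card k ^ m) - a) < 1 := by
    have h2 := (hb (MvPolynomial.X () ^ (Nat.card k ^ m) - MvPolynomial.X ())).1 (by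
      rw [map_sub, map_pow, MvPolynomial.aeval_X, sub_eq_zero]
      haveI := Fintype.ofFinite E
      have h3 : Nat.card E = Nat.card k ^ m := Module.natCard_eq_pow_finrank (K := k)
      rw [← h3, Nat.card_eq_fintype_card]
      exact FiniteField.pow_card _)
    rwa [map_sub, map_pow, MvPolynomial.aeval_X] at h2
  obtain ⟨α, hα1, hα2⟩ := teich (k := k) hw m a h1
  have hint : IsIntegral k α := (deg_le (k := k) hmpos.ne' hα1).1
  let T := IntermediateField.adjoin k {α}
  haveI : FiniteDimensional k T := IntermediateField.adjoin.finiteDimensional hint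
  haveI : Finite T := Module.finite_of_finite k
  haveI : IsGalois k T := inferInstance
  have hT : ¬ ℓ ∣ finrank k T := by
    intro hdvd
    obtain ⟨e, he1, he2⟩ := exists_gen (k := k) hℓ hdvd
    apply he2
    apply Subtype.ext
    have h3 : (e : M) ^ (Nat.card k ^ ℓ) = e := congrArg (fun z : T => (z : M)) he1
    exact hno _ h3
  let τ : M ≃ₐ[k] M := σ.restrictScalars k
  have hτ : τ ^ (ℓ ^ j) = 1 := by
    have h3 : ∀ n : ℕ, τ ^ n = (σ ^ n).restrictScalars k := by
      intro n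
      induction n with
      | zero => rfl
      | succ n ih => rw [pow_succ, ih, pow_succ]; rfl
    rw [h3, hσ]
    rfl
  let τ' : T ≃ₐ[k] T := AlgEquiv.restrictNormalHom T τ
  have h4 : τ' ^ (ℓ ^ j) = 1 := by
    change (AlgEquiv.restrictNormalHom T τ) ^ (ℓ ^ j) = 1
    rw [← map_pow, hτ, map_one]
  have h5 : τ' ^ (finrank k T) = 1 := by
    rw [← IsGalois.card_aut_eq_finrank k T]
    exact pow_card_eq_one'
  have h6 : τ' = 1 := by
    have h7 : Nat.Coprime (ℓ ^ j) (finrank k T) :=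
      Nat.Coprime.pow_left _ ((Nat.Prime.coprime_iff_not_dvd hℓ).2 hT)
    have h8 := orderOf_dvd_of_pow_eq_one h4
    have h9 := orderOf_dvd_of_pow_eq_one h5
    have h10 := Nat.eq_one_of_dvd_coprimes h7 h8 h9
    exact orderOf_eq_one_iff.1 h10
  have h11 : σ α = α := by
    have h12 : ((τ' (IntermediateField.AdjoinSimple.gen k α) : T) : M) =
        τ (IntermediateField.AdjoinSimple.gen k α : T) :=
      AlgEquiv.restrictNormal_commutes τ T (IntermediateField.AdjoinSimple.gen k α)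
    rw [h6] at h12
    exact h12.symm
  have e : σ a - a = σ (a - α) + (α - a) := by rw [map_sub, h11]; ring
  rw [e]
  refine (w.map_add _ _).trans_lt (max_lt ?_ hα2)
  rw [w_aut hw, w.map_sub_swap]
  exact hα2

/-- ramification and degrees -/
theorem ram {δ ℓ a : ℕ} [FiniteDimensional F M] (hpl : IsPlace k F δ) (hw : IsExt F M w)
    (hℓ : ℓ.Prime) (hδ : ¬ ℓ ∣ δ) (y : M) (hy : w y ^ (ℓ ^ a) = 1 / 2) :
    ℓ ^ a ∣ finrank F M ∧ (¬ ℓ ^ (a + 1) ∣ finrank F M →
      ∀ α : M, α ^ (Nat.card k ^ ℓ) = α → α ^ Nat.card k = α) := by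
  have hy0 : y ≠ 0 := by
    rintro rfl
    rw [map_zero, zero_pow (pow_ne_zero _ hℓ.ne_zero)] at hy
    norm_num at hy
  have hn0 : Algebra.norm F y ≠ 0 := Algebra.norm_ne_zero_iff.2 hy0
  have h2 : ((1 : ℝ≥0) / 2) ^ finrank F M = hm (vF F (Algebra.norm F y)) ^ (ℓ ^ a) := by
    rw [← hw.norm, ← hy, ← pow_mul, ← pow_mul, mul_comm]
  have h3 : ∀ c : F, c ≠ 0 → ∃ z : ℤ, hm (vF F c) = (2 : ℝ≥0) ^ z := by
    intro c hc
    have h4 : vF F c ≠ 0 := (Valuation.ne_zero_iff _).2 hc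
    refine ⟨log (vF F c), ?_⟩
    rw [← hm_exp, exp_log h4]
  have key : ∀ (n : ℕ) (z : ℤ), ((1 : ℝ≥0) / 2) ^ n = ((2 : ℝ≥0) ^ z) ^ (ℓ ^ a) →
      (n : ℤ) = -(z * (ℓ ^ a : ℕ)) := by
    intro n z h
    have h5 : ((2 : ℝ≥0)) ^ (-(n : ℤ)) = (2 : ℝ≥0) ^ (z * ((ℓ ^ a : ℕ) : ℤ)) := by
      rw [zpow_mul, zpow_natCast, ← h, zpow_neg, zpow_natCast, one_div, inv_pow]
    have h6 := zpow_right_injective₀ (by norm_num : (0 : ℝ≥0) < 2) (by norm_num) h5
    linarith
  refine ⟨?_, fun hnd α h1 => ?_⟩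
  · obtain ⟨z, hz⟩ := h3 _ hn0
    rw [hz] at h2
    have h7 := key _ _ h2
    have h8 : ((ℓ ^ a : ℕ) : ℤ) ∣ (finrank F M : ℤ) := by
      rw [h7]
      exact (Dvd.intro_left z rfl).neg_right
    exact_mod_cast h8
  · by_contra hne
    obtain ⟨-, h4⟩ := dvd_ord hpl hℓ hδ h1 hne
    obtain ⟨c, hc, hc'⟩ := h4 y hy0
    obtain ⟨z, hz⟩ := h3 c hc
    have h9 : hm (vF F (Algebra.norm F y)) = (2 : ℝ≥0) ^ (z * ℓ) := by
      rw [hc', map_pow, hz, zpow_mul, zpow_natCast]
    rw [h9] at h2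
    have h7 := key _ _ h2
    apply hnd
    have h8 : ((ℓ ^ (a + 1) : ℕ) : ℤ) ∣ (finrank F M : ℤ) := by
      rw [h7, pow_succ]
      refine (Dvd.intro_left z ?_).neg_right
      push_cast
      ring
    exact_mod_cast h8

end loc

end Pool.Agent.H89.IT
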