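import Pool.Agent.H89.IT.Comp
import Pool.Agent.H89.IT.Loc
import Pool.Agent.H89.IT.Defs

/-! From local points to fixed constant points. -/

set_option autoImplicit false
set_option linter.all false

open WithZero Filter Topology Module
open scoped Classical NNReal
open Pool.Agent.H89.FP

namespace Pool.Agent.H89.IT

theorem map_mulVec_hom {R S : Type} [CommRing R] [CommRing S] (f : R →+* S) {N : ℕ}
    (A : Matrix (Fin N) (Fin N) R) (v : Fin N → R) :
    (A.map f).mulVec (fun i => f (v i)) = fun i => f (A.mulVec v i) := by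
  funext i
  simp only [Matrix.mulVec, dotProduct, Matrix.map_apply, map_sum, map_mul]

theorem local_const {k K K' F : Type} [Field k] [Finite k] [Field K] [Algebra k K] [Field K']
    [Algebra K K'] [FiniteDimensional K K'] [IsGalois K K'] [Field F] [Algebra k F]
    [Valued F (WithZero (Multiplicative ℤ))] (φ : K →+* F)
    (hφ : ∀ c : k, φ (algebraMap k K c) = algebraMap k F c) {δ ℓ : ℕ} (hpl : IsPlace k F δ)
    (hℓ : ℓ.Prime) (hδ : ¬ ℓ ∣ δ)
    (hram : ∀ w : Valuation K' ℝ≥0, (∀ x : K, w (algebraMap K K' x) = hm (vF F (φ x))) →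
      ∃ y, w y ^ (ℓ ^ (finrank K K').factorization ℓ) = 1 / 2)
    {N : ℕ} {Y : Set (MvPolynomial (Fin N) k)} {X : Set (MvPolynomial (Fin N) K)}
    (hY : ∀ H ∈ Y, ∃ e, H.IsHomogeneous e) {A : Matrix (Fin N) (Fin N) K'} (hA : IsTwist Y X A)
    (L : Type) [Field L] [Algebra F L] [FiniteDimensional F L] (hL : ¬ ℓ ∣ finrank F L)
    (P : Fin N → L) (hP : Pts X ((algebraMap F L).comp φ) P) :
    ∃ (E : Type) (_ : Field E) (_ : Algebra k E) (b : Fin N → E) (S : Subgroup (K' ≃ₐ[K] K')),
      FiniteDimensional k E ∧ ¬ ℓ ∣ finrank k E ∧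
      Nat.card S = ℓ ^ (finrank K K').factorization ℓ ∧ Pts Y (algebraMap k E) b ∧
      ∀ g ∈ S, ∃ (c : K') (ρ : Matrix (Fin N) (Fin N) k) (χ : E),
        A.map g = c • (A * ρ.map ((algebraMap K K').comp (algebraMap k K))) ∧
        (ρ.map (algebraMap k E)).mulVec b = χ • b := by
  haveI : Fact ℓ.Prime := ⟨hℓ⟩
  haveI := hpl.complete
  set a := (finrank K K').factorization ℓ with ha
  letI : Algebra K L := ((algebraMap F L).comp φ).toAlgebra
  obtain ⟨M, _, _, ψ, res, _, _, hψ, hres, hinj⟩ := exists_comp (K := K) (K' := K') (L := L)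
  letI : Algebra F M := ((algebraMap L M).comp (algebraMap F L)).toAlgebra
  haveI : IsScalarTower F L M := IsScalarTower.of_algebraMap_eq' rfl
  haveI : FiniteDimensional F M := FiniteDimensional.trans F L M
  letI : Algebra k M := ((algebraMap F M).comp (algebraMap k F)).toAlgebra
  haveI : IsScalarTower k F M := IsScalarTower.of_algebraMap_eq' rfl
  obtain ⟨w, hw⟩ := exists_ext F hpl.nontrivial M
  -- the ramification
  obtain ⟨y, hy⟩ := hram (w.comap ψ) (fun x => by
    rw [Valuation.comap_apply, hψ]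
    change w (algebraMap F M (φ x)) = _
    rw [hw.ext])
  rw [Valuation.comap_apply] at hy
  obtain ⟨h1, h2⟩ := ram hpl hw hℓ hδ (ψ y) hy
  have hG0 : finrank K K' ≠ 0 := finrank_pos.ne'
  have hcardM : Nat.card (M ≃ₐ[L] M) = finrank L M := IsGalois.card_aut_eq_finrank L M
  have hcardG : Nat.card (K' ≃ₐ[K] K') = finrank K K' := IsGalois.card_aut_eq_finrank K K'
  have hdvd : Nat.card (M ≃ₐ[L] M) ∣ Nat.card (K' ≃ₐ[K] K') := Subgroup.card_dvd_of_injective res hinj
  have hcop : ∀ j : ℕ, Nat.Coprime (ℓ ^ j) (finrank F L) := fun j =>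
    Nat.Coprime.pow_left _ ((Nat.Prime.coprime_iff_not_dvd hℓ).2 hL)
  have hmul : finrank F L * finrank L M = finrank F M := finrank_mul_finrank F L M
  have h3 : ℓ ^ a ∣ finrank L M := by
    rw [← hmul] at h1
    exact (hcop a).dvd_of_dvd_mul_left h1
  have h4 : ¬ ℓ ^ (a + 1) ∣ finrank L M := by
    intro h
    rw [hcardM, hcardG] at hdvd
    exact Nat.pow_succ_factorization_not_dvd hG0 hℓ (h.trans hdvd)
  have hno := h2 (by
    rw [← hmul]
    intro h
    exact h4 ((hcop (a + 1)).dvd_of_dvd_mul_left h))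
  have h5 : (finrank L M).factorization ℓ = a := by
    have hM0 : finrank L M ≠ 0 := finrank_pos.ne'
    refine le_antisymm ?_ ((hℓ.pow_dvd_iff_le_factorization hM0).1 h3)
    by_contra hlt
    exact h4 ((hℓ.pow_dvd_iff_le_factorization hM0).2 (by omega))
  -- the Sylow subgroup
  obtain ⟨S₁⟩ : Nonempty (Sylow ℓ (M ≃ₐ[L] M)) := inferInstance
  have hS₁ : Nat.card S₁ = ℓ ^ a := by
    rw [S₁.card_eq_multiplicity, hcardM, h5]
  let S : Subgroup (K' ≃ₐ[K] K') := (S₁ : Subgroup (M ≃ₐ[L] M)).map res
  have hS : Nat.card S = ℓ ^ a := by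
    rw [← hS₁]
    exact Nat.card_congr ((S₁ : Subgroup (M ≃ₐ[L] M)).equivMapOfInjective res hinj).symm.toEquiv
  -- the point on `Y`
  let B : Matrix (Fin N) (Fin N) M := A.map ψ
  have hBdet : IsUnit B.det := by
    have : B.det = ψ A.det := (RingHom.map_det ψ A).symm
    rw [this]
    exact hA.unit.map ψ
  let P' : Fin N → M := fun i => algebraMap L M (P i)
  have hcomp : (ψ.comp (algebraMap K K')) = (algebraMap L M).comp ((algebraMap F L).comp φ) := by
    ext x
    exact hψ x
  have hP' : Pts X (ψ.comp (algebraMap K K')) P' := by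
    refine ⟨fun h0 => hP.1 ?_, fun H hH => ?_⟩
    · funext i
      have := congrFun h0 i
      exact (map_eq_zero (algebraMap L M)).1 this
    · have h6 := hP.2 H hH
      have h7 := congrArg (algebraMap L M) h6
      rw [map_zero, MvPolynomial.hom_eval₂] at h7
      rw [hcomp]
      exact h7
  let y₀ : Fin N → M := B⁻¹.mulVec P'
  have hBy : B.mulVec y₀ = P' := by
    rw [Matrix.mulVec_mulVec, Matrix.mul_nonsing_inv B hBdet, Matrix.one_mulVec]
  have hy₀ : Pts Y (ψ.comp ((algebraMap K K').comp (algebraMap k K))) y₀ := by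
    rw [hA.pts M ψ y₀]
    change Pts X _ (B.mulVec y₀)
    rw [hBy]
    exact hP'
  have hk : (ψ.comp ((algebraMap K K').comp (algebraMap k K))) = algebraMap k M := by
    ext c
    change ψ (algebraMap K K' (algebraMap k K c)) = _
    rw [hψ]
    change algebraMap L M (algebraMap F L (φ (algebraMap k K c))) = _
    rw [hφ]
    rfl
  rw [hk] at hy₀
  obtain ⟨c₀, x, hc₀, hx1, hx2, i₀, hx3⟩ := primitive w y₀ hy₀.1
  have hyx : y₀ = c₀ • x := by
    funext i
    rw [hx1 i]
    rfl
  have hxY : ∀ H ∈ Y, MvPolynomial.aeval x H = 0 := by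
    intro H hH
    obtain ⟨e, he⟩ := hY H hH
    have h6 := hy₀.2 H hH
    have h7 := aeval_smul_hom he c₀ x
    have h8 : MvPolynomial.aeval (fun i => c₀ * x i) H = 0 := by
      have : (fun i => c₀ * x i) = y₀ := by
        funext i
        exact (hx1 i).symm
      rw [this]
      exact h6
    rw [h8] at h7
    exact (mul_eq_zero.1 h7.symm).resolve_left (pow_ne_zero _ hc₀)
  obtain ⟨E, _, _, b, hfd, hnd, hb⟩ := reduce hpl hw hℓ hno x hx2
  have hb0 : b i₀ ≠ 0 := by
    intro h0
    have h6 := (hb (MvPolynomial.X i₀)).1 (by rw [MvPolynomial.aeval_X, h0])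
    rw [MvPolynomial.aeval_X, hx3, map_one] at h6
    exact lt_irrefl _ h6
  refine ⟨E, inferInstance, inferInstance, b, S, hfd, hnd, hS, ⟨fun h0 => hb0 (congrFun h0 i₀), ?_⟩,
    ?_⟩
  · intro H hH
    change MvPolynomial.aeval b H = 0
    rw [hb, hxY H hH, map_zero]
    exact zero_lt_one
  · rintro g ⟨σ, hσ, rfl⟩
    obtain ⟨c, ρ, hcρ⟩ := hA.cocycle (res σ)
    -- the relation over `M`
    have h6 : B.map σ = ψ c • (B * ρ.map (algebraMap k M)) := by
      have e1 : B.map σ = (A.map (res σ)).map ψ := by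
        ext i j
        simp only [B, Matrix.map_apply]
        exact hres σ (A i j)
      rw [e1, hcρ]
      ext i j
      simp only [Matrix.map_apply, Matrix.smul_apply, smul_eq_mul, map_mul, Matrix.mul_apply,
        map_sum, B]
      congr 1
      refine Finset.sum_congr rfl fun l _ => ?_
      congr 1
      exact congrArg (fun h : k →+* M => h (ρ l j)) hk
    let σy : Fin N → M := fun i => σ (y₀ i)
    have h7 : P' = ψ c • B.mulVec ((ρ.map (algebraMap k M)).mulVec σy) := by
      have e1 : (fun i => σ (P' i)) = P' := by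
        funext i
        exact σ.commutes (P i)
      have e2 : (fun i => σ (P' i)) = (B.map σ).mulVec σy := by
        rw [← hBy]
        exact (map_mulVec_hom (σ : M →+* M) B y₀).symm
      rw [← e1, e2, h6, Matrix.smul_mulVec, Matrix.mulVec_mulVec]
    have h8 : y₀ = ψ c • (ρ.map (algebraMap k M)).mulVec σy := by
      have e1 : B⁻¹.mulVec P' = y₀ := rfl
      rw [← e1, h7, Matrix.mulVec_smul, Matrix.mulVec_mulVec, Matrix.nonsing_inv_mul B hBdet,
        Matrix.one_mulVec]
    let v : Fin N → M := (ρ.map (algebraMap k M)).mulVec (fun i => σ (x i))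
    have h9 : ∀ i, c₀ * x i = ψ c * (σ c₀ * v i) := by
      intro i
      have e1 := congrFun h8 i
      rw [Pi.smul_apply, smul_eq_mul] at e1
      rw [← hx1 i, e1]
      congr 1
      have e2 : σy = σ c₀ • (fun i => σ (x i)) := by
        funext j
        change σ (y₀ j) = σ c₀ * σ (x j)
        rw [hx1 j, map_mul]
      rw [e2, Matrix.mulVec_smul]
      rfl
    have hcc : ψ c * σ c₀ ≠ 0 := by
      intro h0
      have e1 := h9 i₀
      rw [← mul_assoc, h0, zero_mul, hx3, mul_one] at e1
      exact hc₀ e1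
    have h10 : ∀ i j, v i * x j = v j * x i := by
      intro i j
      have e1 := h9 i
      have e2 := h9 j
      rw [← mul_assoc] at e1 e2
      apply mul_left_cancel₀ hcc
      apply mul_left_cancel₀ hc₀
      calc c₀ * (ψ c * σ c₀ * (v i * x j)) = (ψ c * σ c₀ * v i) * (c₀ * x j) := by ring
        _ = (c₀ * x i) * (ψ c * σ c₀ * v j) := by rw [← e1, e2]
        _ = c₀ * (ψ c * σ c₀ * (v j * x i)) := by ring
    -- reduction
    have hord : ∃ j : ℕ, σ ^ (ℓ ^ j) = 1 := by
      obtain ⟨j, hj⟩ := S₁.isPGroup' ⟨σ, hσ⟩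
      exact ⟨j, congrArg Subtype.val hj⟩
    obtain ⟨j₁, hj₁⟩ := hord
    have hact : ∀ i, w (σ (x i) - x i) < 1 := fun i =>
      act_trivial hpl hw hℓ hno (σ.restrictScalars F) j₁ (by
        have e1 : ∀ n : ℕ, (σ.restrictScalars F) ^ n = (σ ^ n).restrictScalars F := by
          intro n
          induction n with
          | zero => rfl
          | succ n ih => rw [pow_succ, ih, pow_succ]; rfl
        rw [e1, hj₁]
        rfl) (x i) (hx2 i)
    let Q : Fin N → MvPolynomial (Fin N) k := fun i =>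
      ∑ l, MvPolynomial.C (ρ i l) * MvPolynomial.X l
    have hQx : ∀ i, MvPolynomial.aeval x (Q i) = ((ρ.map (algebraMap k M)).mulVec x) i := by
      intro i
      simp only [Q, map_sum, map_mul, MvPolynomial.aeval_C, MvPolynomial.aeval_X, Matrix.mulVec,
        dotProduct, Matrix.map_apply]
    have hQb : ∀ i, MvPolynomial.aeval b (Q i) = ((ρ.map (algebraMap k E)).mulVec b) i := by
      intro i
      simp only [Q, map_sum, map_mul, MvPolynomial.aeval_C, MvPolynomial.aeval_X, Matrix.mulVec,
        dotProduct, Matrix.map_apply]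
    have hdiff : ∀ i, w (((ρ.map (algebraMap k M)).mulVec x) i - v i) < 1 := by
      intro i
      have e1 : ((ρ.map (algebraMap k M)).mulVec x) i - v i =
          ∑ l, algebraMap k M (ρ i l) * (x l - σ (x l)) := by
        simp only [v, Matrix.mulVec, dotProduct, Matrix.map_apply]
        rw [← Finset.sum_sub_distrib]
        refine Finset.sum_congr rfl fun l _ => ?_
        ring
      rw [e1]
      refine Valuation.map_sum_lt' w zero_lt_one fun l _ => ?_
      rw [map_mul, w.map_sub_swap]
      exact mul_lt_one_of_nonneg_of_lt_one_right (w_const_le w _) zero_le (hact l)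
    have h11 : ∀ i j, MvPolynomial.aeval b (Q i * MvPolynomial.X j - Q j * MvPolynomial.X i) = 0 := by
      intro i j
      rw [hb, map_sub, map_mul, map_mul, hQx, hQx, MvPolynomial.aeval_X, MvPolynomial.aeval_X]
      have e1 : ((ρ.map (algebraMap k M)).mulVec x) i * x j -
          ((ρ.map (algebraMap k M)).mulVec x) j * x i =
          (((ρ.map (algebraMap k M)).mulVec x) i - v i) * x j -
          (((ρ.map (algebraMap k M)).mulVec x) j - v j) * x i := by
        have := h10 i j
        linear_combination this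
      rw [e1]
      refine (w.map_sub _ _).trans_lt (max_lt ?_ ?_)
      · rw [map_mul]
        exact mul_lt_one_of_nonneg_of_lt_one_left zero_le (hdiff i) (hx2 j)
      · rw [map_mul]
        exact mul_lt_one_of_nonneg_of_lt_one_left zero_le (hdiff j) (hx2 i)
    refine ⟨c, ρ, ((ρ.map (algebraMap k E)).mulVec b) i₀ / b i₀, hcρ, ?_⟩
    funext i
    have h12 := h11 i i₀
    rw [map_sub, map_mul, map_mul, hQb, hQb, MvPolynomial.aeval_X, MvPolynomial.aeval_X,
      sub_eq_zero] at h12
    rw [Pi.smul_apply, smul_eq_mul, div_mul_eq_mul_div, eq_div_iff hb0]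
    exact h12

end Pool.Agent.H89.IT
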